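import Pool.Agent.Y462.PA.Stm

/-!
# Polynomial activity: one level up at the centre

Job PA-LVC.
-/

set_option autoImplicit false

open Classical

namespace Pool.Agent.Y858.PA

open Pool.Agent.Y462.SS Pool.Agent.Y462.PA
open Pool.Agent.Y110.FJ (ClosedE S_EXT S_PERM S_AM Amg)

/-- the homomorphism of wreath products given by a homomorphism -/
def wmap {X Γ Δ : Type} [Group Γ] [Group Δ] (f : Γ →* Δ) : Wr X Γ →* Wr X Δ where
  toFun a := ⟨fun x => f (a.s x), a.p⟩
  map_one' := by
    apply Wr.ext
    · funext x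
      exact map_one f
    · rfl
  map_mul' a b := by
    apply Wr.ext
    · funext x
      exact map_mul f _ _
    · rfl

/-- the sections of a directed automorphism along its ray -/
theorem al_sec {X : Type} (d : X) (b : T X) (n : ℕ) :
    al (dray d) (sec b d) n = al (dray d) b (n + 1) := by
  induction n with
  | zero => rfl
  | succ n ih =>
    rw [al, ih]
    rfl

theorem sec_mem_Bd {X : Type} {d : X} {P : ℕ} {H : Subgroup (T X)} {b : T X}
    (hb : b ∈ Bd d P H) : sec b d ∈ Bd d P H := by
  obtain ⟨h1, h2, h3⟩ := hb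
  refine ⟨fun n => ?_, ?_, fun n x hx => ?_⟩
  · rw [al_sec]
    exact h1 _
  · rw [al_sec, al, h2]
    rfl
  · rw [al_sec]
    exact h3 _ x hx

/-- the family of one group is good -/
theorem TL_top (C : ∀ (G : Type) [Group G], Prop) (A : Type) [Group A] : TL C A {⊤} := by
  intro P _ f hP hf
  refine ⟨P, inferInstance, f, hP, ?_, fun A' _ => ⟨MonoidHom.id P, fun _ _ h => h, fun a _ => rfl⟩⟩
  rw [injective_iff_map_eq_one]
  intro a ha
  exact hf ⊤ rfl a (Subgroup.mem_top a) ha

section inj

variable {C : ∀ (G : Type) [Group G], Prop} {X : Type} {d : X} {P : ℕ} {H : Subgroup (T X)}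

theorem ss3_inj (hINJ : S_AMINJ) (W : Ctx C d P H) (A : Type) [Group A] (m : H →* A)
    (b : Bd d P H →* A) (hm : Function.Injective m) (hb : Function.Injective b) :
    Function.Injective (Am.inl W.iV m) ∧ Function.Injective (Am.inr W.iV m) ∧
    Function.Injective (Am.inl ((Am.inr W.iV m).comp b) W.iU) ∧
    Function.Injective (Am.inr ((Am.inr W.iV m).comp b) W.iU) := by
  obtain ⟨h1, h2⟩ := hINJ H W.V A W.iV m W.iV_inj hm
  have h3 : Function.Injective ((Am.inr W.iV m).comp b) := h2.comp hb
  obtain ⟨h4, h5⟩ := hINJ (Bd d P H) (Am W.iV m) W.U ((Am.inr W.iV m).comp b) W.iU h3 W.iU_inj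
  exact ⟨h1, h2, h4, h5⟩

/-- the family of vertex groups -/
def fam (W : Ctx C d P H) (A : Type) [Group A] (m : H →* A) (b : Bd d P H →* A) :
    Set (Subgroup (SS3 W A m b)) :=
  Subgroup.map (Am.inl ((Am.inr W.iV m).comp b) W.iU) ''
      (Subgroup.map (Am.inl W.iV m) '' W.FV ∪ Subgroup.map (Am.inr W.iV m) '' {⊤}) ∪
    Subgroup.map (Am.inr ((Am.inr W.iV m).comp b) W.iU) '' W.FU

theorem fam_TL (hC : ClosedE C) (hINJ : S_AMINJ) (hTLA : S_TLA) (W : Ctx C d P H) (A : Type)
    [Group A] (m : H →* A) (b : Bd d P H →* A) (hm : Function.Injective m)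
    (hb : Function.Injective b) : TL C (SS3 W A m b) (fam W A m b) := by
  obtain ⟨h1, h2, -, -⟩ := ss3_inj hINJ W A m b hm hb
  have h3 : TL C (Am W.iV m)
      (Subgroup.map (Am.inl W.iV m) '' W.FV ∪ Subgroup.map (Am.inr W.iV m) '' {⊤}) :=
    hTLA C hC H W.V A W.iV m W.iV_inj hm W.FV {⊤} W.tV (TL_top C A) W.iV_le ⟨⊤, rfl, le_top⟩
  refine hTLA C hC (Bd d P H) (Am W.iV m) W.U ((Am.inr W.iV m).comp b) W.iU (h2.comp hb) W.iU_inj
    _ W.FU h3 W.tU ⟨Subgroup.map (Am.inr W.iV m) ⊤, Or.inr ⟨⊤, rfl, rfl⟩, ?_⟩ W.iU_le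
  rintro _ ⟨c, rfl⟩
  exact ⟨b c, Subgroup.mem_top _, rfl⟩

end inj

theorem t_lvc (hWR : S_WR) (hINJ : S_AMINJ) (hTLA : S_TLA) : S_LVC := by
  intro C hC X hX d P hP H N hH h1 h2 h3 h4 W hS
  -- the group below
  set m₀ : H →* N := Subgroup.inclusion h1 with hm₀
  set b₀ : Bd d P H →* N := Subgroup.inclusion h2 with hb₀
  set m : H →* Lv N 1 := Subgroup.inclusion h3 with hm
  set b : Bd d P H →* Lv N 1 := Subgroup.inclusion h4 with hb
  have im₀ : Function.Injective m₀ := Subgroup.inclusion_injective h1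
  have ib₀ : Function.Injective b₀ := Subgroup.inclusion_injective h2
  have im : Function.Injective m := Subgroup.inclusion_injective h3
  have ib : Function.Injective b := Subgroup.inclusion_injective h4
  obtain ⟨i1, i2, i3, i4⟩ := ss3_inj hINJ W N m₀ b₀ im₀ ib₀
  set jV : W.V →* SS3 W N m₀ b₀ :=
    (Am.inl ((Am.inr W.iV m₀).comp b₀) W.iU).comp (Am.inl W.iV m₀) with hjV
  set jN : N →* SS3 W N m₀ b₀ :=
    (Am.inl ((Am.inr W.iV m₀).comp b₀) W.iU).comp (Am.inr W.iV m₀) with hjN
  set jU : W.U →* SS3 W N m₀ b₀ := Am.inr ((Am.inr W.iV m₀).comp b₀) W.iU with hjU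
  have ijV : Function.Injective jV := i3.comp i1
  have ijN : Function.Injective jN := i3.comp i2
  have ijU : Function.Injective jU := i4
  have gV : ∀ c : H, jV (W.iV c) = jN (m₀ c) := fun c =>
    congrArg (Am.inl ((Am.inr W.iV m₀).comp b₀) W.iU) (Am.glue W.iV m₀ c)
  have gU : ∀ c : Bd d P H, jN (b₀ c) = jU (W.iU c) := fun c =>
    Am.glue ((Am.inr W.iV m₀).comp b₀) W.iU c
  -- the homomorphisms of the vertex groups
  let fV : W.V →* Wr X (SS3 W N m₀ b₀) := (wmap jV).comp W.rV
  let fN : Lv N 1 →* Wr X (SS3 W N m₀ b₀) :=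
    { toFun := fun g => ⟨fun x => jN ⟨sec g.1 x, g.2 x⟩, root g.1⟩
      map_one' := by
        apply Wr.ext
        · funext x
          have e : (⟨sec (1 : Lv N 1).1 x, (1 : Lv N 1).2 x⟩ : N) = 1 := Subtype.ext (sec_one x)
          show jN ⟨sec (1 : Lv N 1).1 x, (1 : Lv N 1).2 x⟩ = 1
          rw [e, map_one]
        · exact root_one
      map_mul' := fun g h => by
        apply Wr.ext
        · funext x
          have e : (⟨sec (g * h).1 x, (g * h).2 x⟩ : N) =
              ⟨sec g.1 (root h.1 x), g.2 _⟩ * ⟨sec h.1 x, h.2 x⟩ := Subtype.ext (sec_mul g.1 h.1 x)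
          show jN ⟨sec (g * h).1 x, (g * h).2 x⟩ =
            jN ⟨sec g.1 (root h.1 x), g.2 _⟩ * jN ⟨sec h.1 x, h.2 x⟩
          rw [e, map_mul]
        · exact root_mul g.1 h.1 }
  let fU : W.U →* Wr X (SS3 W N m₀ b₀) :=
    { toFun := fun u => ⟨fun x => if x = d then jU (W.rU u) else jV ((W.oU u).s x), (W.oU u).p⟩
      map_one' := by
        apply Wr.ext
        · funext x
          show (if x = d then jU (W.rU 1) else jV ((W.oU 1).s x)) = 1
          by_cases hx : x = d
          · rw [if_pos hx, map_one, map_one]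
          · rw [if_neg hx, map_one, Wr.one_s, map_one]
        · show (W.oU 1).p = 1
          rw [map_one]
          rfl
      map_mul' := fun u v => by
        apply Wr.ext
        · funext x
          show (if x = d then jU (W.rU (u * v)) else jV ((W.oU (u * v)).s x)) =
            (if (W.oU v).p x = d then jU (W.rU u) else jV ((W.oU u).s ((W.oU v).p x))) *
              (if x = d then jU (W.rU v) else jV ((W.oU v).s x))
          by_cases hx : x = d
          · rw [if_pos hx, if_pos hx, hx, if_pos (W.oU_p v), map_mul, map_mul]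
          · have hx' : (W.oU v).p x ≠ d := by
              intro h
              exact hx ((W.oU v).p.injective (h.trans (W.oU_p v).symm))
            rw [if_neg hx, if_neg hx, if_neg hx', map_mul, Wr.mul_s, map_mul]
        · show (W.oU (u * v)).p = (W.oU u).p * (W.oU v).p
          rw [map_mul, Wr.mul_p] }
  have c1 : ∀ c : H, fV (W.iV c) = fN (m c) := by
    intro c
    apply Wr.ext
    · funext x
      have hx : sec c.1 x ∈ H := hH c.1 c.2 x
      show jV ((W.rV (W.iV c)).s x) = jN ⟨sec (m c).1 x, (m c).2 x⟩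
      rw [W.rV_s c x hx, gV]
      rfl
    · exact W.rV_p c
  have c2 : ∀ c : Bd d P H, fN (b c) = fU (W.iU c) := by
    intro c
    apply Wr.ext
    · funext x
      show jN ⟨sec (b c).1 x, (b c).2 x⟩ =
        if x = d then jU (W.rU (W.iU c)) else jV ((W.oU (W.iU c)).s x)
      by_cases hx : x = d
      · have hbd : sec c.1 d ∈ Bd d P H := sec_mem_Bd c.2
        rw [if_pos hx, W.rU_i c hbd, ← gU]
        subst hx
        rfl
      · have hxH : sec c.1 x ∈ H := c.2.2.2 0 x hx
        rw [if_neg hx, W.oU_i c x hxH hx, gV]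
        rfl
    · exact (W.oU_ip c).symm
  let F : SS3 W (Lv N 1) m b →* Wr X (SS3 W N m₀ b₀) :=
    Am.lift ((Am.inr W.iV m).comp b) W.iU (Am.lift W.iV m fV fN c1) fU (fun c => by
      rw [MonoidHom.comp_apply, Am.lift_inr]
      exact c2 c)
  have hWrS : C (Wr X (SS3 W N m₀ b₀)) := hWR C hC.base X _ hX hS
  obtain ⟨Q, gQ, Θ, hQ, hΘ, -⟩ := fam_TL hC hINJ hTLA W (Lv N 1) m b im ib
    (Wr X (SS3 W N m₀ b₀)) F hWrS (by
      rintro A (⟨A1, (⟨A0, hA0, rfl⟩ | ⟨A0, hA0, rfl⟩), rfl⟩ | ⟨A0, hA0, rfl⟩)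
      · rintro _ ⟨_, ⟨v, hv, rfl⟩, rfl⟩ h
        have e1 : F (Am.inl ((Am.inr W.iV m).comp b) W.iU (Am.inl W.iV m v)) = fV v := by
          show Am.lift _ _ _ _ _ _ = _
          rw [Am.lift_inl, Am.lift_inl]
        rw [e1] at h
        have e2 : W.rV v = 1 := by
          apply Wr.ext
          · funext x
            have h5 : jV ((W.rV v).s x) = 1 := congrFun (congrArg Wr.s h) x
            exact (injective_iff_map_eq_one jV).1 ijV _ h5
          · have h6 : (fV v).p = 1 := congrArg Wr.p h
            exact h6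
        rw [W.rV_inj A0 hA0 v hv e2, map_one, map_one]
      · rintro _ ⟨_, ⟨g, -, rfl⟩, rfl⟩ h
        have e1 : F (Am.inl ((Am.inr W.iV m).comp b) W.iU (Am.inr W.iV m g)) = fN g := by
          show Am.lift _ _ _ _ _ _ = _
          rw [Am.lift_inl, Am.lift_inr]
        rw [e1] at h
        have e2 : g = 1 := by
          apply Subtype.ext
          apply T_ext
          · exact (congrArg Wr.p h).trans root_one.symm
          · intro x
            have h5 : jN ⟨sec g.1 x, g.2 x⟩ = 1 := congrFun (congrArg Wr.s h) x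
            have h6 := (injective_iff_map_eq_one jN).1 ijN _ h5
            exact (congrArg Subtype.val h6).trans (sec_one x).symm
        rw [e2, map_one, map_one]
      · rintro _ ⟨u, hu, rfl⟩ h
        have e1 : F (Am.inr ((Am.inr W.iV m).comp b) W.iU u) = fU u := by
          show Am.lift _ _ _ _ _ _ = _
          rw [Am.lift_inr]
        rw [e1] at h
        have hs : ∀ x, (if x = d then jU (W.rU u) else jV ((W.oU u).s x)) = 1 := fun x =>
          congrFun (congrArg Wr.s h) x
        have e2 : W.rU u = 1 := by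
          have h5 := hs d
          rw [if_pos rfl] at h5
          exact (injective_iff_map_eq_one jU).1 ijU _ h5
        have e3 : W.oU u = 1 := by
          apply Wr.ext
          · funext x
            by_cases hx : x = d
            · rw [hx]
              exact W.oU_s u
            · have h5 := hs x
              rw [if_neg hx] at h5
              exact (injective_iff_map_eq_one jV).1 ijV _ h5
          · have h6 : (fU u).p = 1 := congrArg Wr.p h
            exact h6
        rw [W.rU_inj A0 hA0 u hu e2 e3, map_one])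
  exact hC.base.of_injective _ _ Θ hΘ hQ

end Pool.Agent.Y858.PA
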